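import Pool.Agent.Helper12.KS.Kill

/-!
# Consecutive Kalita-Saikia numbers: reduction to prime Pell index
-/

set_option autoImplicit false

namespace Pool.Agent.Results.MP_1ac969_nt.PrimeIndex

/-- `n` is a Kalita-Saikia number: `n ≥ 1` and for every prime `p` dividing `n`, the sum of the
divisors of the exact power of `p` in `n` is a prime number -/
def KalitaSaikia (n : ℕ) : Prop := 0 < n ∧ ∀ p : ℕ, p.Prime → p ∣ n →
  (∑ d ∈ (p ^ n.factorization p).divisors, d).Prime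

/-- `x 0 = x 1 = 1`, `x (k + 2) = 2 x (k + 1) + x k`: the rational part of `(1 + √2) ^ k` -/
def x : ℕ → ℕ
  | 0 => 1
  | 1 => 1
  | k + 2 => 2 * x (k + 1) + x k

lemma x_eq : ∀ k : ℕ, x k = Pool.Agent.Helper12.KS.X k ∧
    x (k + 1) = Pool.Agent.Helper12.KS.X (k + 1) := by
  intro k
  induction k with
  | zero => exact ⟨rfl, rfl⟩
  | succ k ih =>
    refine ⟨ih.2, ?_⟩
    rw [x, ih.1, ih.2, Pool.Agent.Helper12.KS.X_succ (k + 1), Pool.Agent.Helper12.KS.X_succ k,
      Pool.Agent.Helper12.KS.Y_succ k]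
    ring

lemma X_mono : Monotone Pool.Agent.Helper12.KS.X :=
  monotone_nat_of_le_succ fun k => by rw [Pool.Agent.Helper12.KS.X_succ]; omega

/-- If `n ≥ 2` and `n + 1` are both Kalita-Saikia numbers, then `n = (x k) ^ 2` for an odd `k`, and
if `q` is the largest prime factor of `k`, then `(x q) ^ 2` and `(x q) ^ 2 + 1` are Kalita-Saikia
numbers too; moreover `q > 400` and `n > 10 ^ 306`. -/
theorem result : ∀ n : ℕ, 2 ≤ n → KalitaSaikia n → KalitaSaikia (n + 1) →
    10 ^ 306 < n ∧ ∃ k q : ℕ, Odd k ∧ n = x k ^ 2 ∧ q.Prime ∧ q ∣ k ∧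
      (∀ l : ℕ, l.Prime → l ∣ k → l ≤ q) ∧ 400 < q ∧
      KalitaSaikia (x q ^ 2) ∧ KalitaSaikia (x q ^ 2 + 1) := by
  intro n hn h1 h2
  obtain ⟨k, hk, hk1, hnk, hnk'⟩ := Pool.Agent.Helper12.KS.pair_index hn h1 h2
  obtain ⟨q, hqmem, hqmax⟩ := Finset.exists_max_image k.primeFactors id
    (Nat.nonempty_primeFactors.mpr hk1)
  have hq : q.Prime := Nat.prime_of_mem_primeFactors hqmem
  have hqk : q ∣ k := Nat.dvd_of_mem_primeFactors hqmem
  have hmax : ∀ l : ℕ, l.Prime → l ∣ k → l ≤ q := fun l hl hlk =>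
    hqmax l (Nat.mem_primeFactors.mpr ⟨hl, hlk, by omega⟩)
  have hq2 : Odd q := hk.of_dvd_nat hqk
  have hred := Pool.Agent.Helper12.KS.reduce hk hq hqk hmax (by rw [← hnk]; exact h1)
    (by rw [← hnk']; exact h2)
  have h400 : 400 < q := by
    rcases Nat.lt_or_ge q 400 with h | h
    · exact absurd hred (Pool.Agent.Helper12.KS.no_small hq hq2 h)
    · rcases h.lt_or_eq with h' | h'
      · exact h'
      · exfalso
        rw [← h'] at hq2
        exact absurd hq2 (by decide)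
  have hk401 : 401 ≤ k := le_trans h400 (Nat.le_of_dvd (by omega) hqk)
  have hbig : 10 ^ 153 < Pool.Agent.Helper12.KS.X 401 := by decide +kernel
  refine ⟨?_, k, q, hk, by rw [(x_eq k).1]; exact hnk, hq, hqk, hmax, h400, ?_, ?_⟩
  · rw [hnk]
    calc 10 ^ 306 = (10 ^ 153) ^ 2 := by rw [← pow_mul]
      _ < Pool.Agent.Helper12.KS.X k ^ 2 :=
        Nat.pow_lt_pow_left (lt_of_lt_of_le hbig (X_mono hk401)) two_ne_zero
  · rw [(x_eq q).1]; exact hred.1
  · rw [(x_eq q).1]; exact hred.2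

end Pool.Agent.Results.MP_1ac969_nt.PrimeIndex
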